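import Pool.Agent.N936.TC.Stm

/-!
# Project TC (helper936): leaf CUTS, by helper693
-/

set_option autoImplicit false

namespace Pool.Agent.N693.TC

open Set Topology Pool.Agent.N936.TC

theorem cyl (C : Set Q) (hC : IsOpen C) (w : Q) (hw : w ∈ C) :
    ∃ m : ℕ, ∀ x : Q, (∀ k < m, x k = w k) → x ∈ C := by
  obtain ⟨s, u, h1, h2⟩ := isOpen_pi_iff.1 hC w hw
  refine ⟨s.sup id + 1, fun x hx => h2 ?_⟩
  intro a ha
  have h3 : a ≤ s.sup id := Finset.le_sup (f := id) ha
  rw [hx a (by omega)]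
  exact (h1 a ha).2

theorem t_cuts : Pool.Agent.N936.TC.S_CUTS := by
  intro typ wd hR σ hσ i C₁ C₂ hC₁ hn₁ hC₂ hn₂
  obtain ⟨w₁, hw₁⟩ := hn₁
  obtain ⟨w₂, hw₂⟩ := hn₂
  obtain ⟨m₁, hm₁⟩ := cyl C₁ hC₁ w₁ hw₁
  obtain ⟨m₂, hm₂⟩ := cyl C₂ hC₂ w₂ hw₂
  obtain ⟨n, hn, hty, hwd⟩ := hR i w₁ m₁ (m₁ + m₂ + 1)
  have key : ∀ j q, (¬ (typ n = j ∧ ∀ k < n, q k = wd n k)) → σ j q n = q n := by
    intro j q h
    rw [hσ]
    simp only [sgf]
    rw [if_neg h]
  let y : Bool → Q := fun b k => if k < n - 1 then w₂ k else if k = n - 1 then !(wd n (n - 1))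
    else b
  have hyC : ∀ b, y b ∈ C₂ := by
    intro b
    refine hm₂ _ fun k hk => ?_
    have : k < n - 1 := by omega
    simp only [y, if_pos this]
  have hyn : ∀ b, y b n = b := by
    intro b
    have h1 : ¬ n < n - 1 := by omega
    have h2 : ¬ n = n - 1 := by omega
    simp only [y, if_neg h1, if_neg h2]
  have hyσ : ∀ b j, σ j (y b) n = b := by
    intro b j
    rw [key j (y b), hyn]
    rintro ⟨-, h⟩
    have h1 := h (n - 1) (by omega)
    simp only [y, lt_irrefl, if_false, if_true] at h1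
    exact Bool.not_ne_self _ h1
  refine ⟨{x | x n = true}, ?_, ?_, ⟨y true, hyC _, hyn _, fun j => hyσ _ j⟩,
    ⟨y false, hyC _, ?_, fun j => ?_⟩⟩
  · exact (isClopen_discrete ({true} : Set Bool)).preimage (continuous_apply n)
  · intro j q
    by_cases h : typ n = j ∧ ∀ k < n, q k = wd n k
    · right
      refine ⟨h.1.symm.trans hty, hm₁ q fun k hk => ?_⟩
      rw [h.2 k (by omega), hwd k hk]
    · left
      simp only [mem_ofPred_eq, key j q h]
  · simp only [mem_ofPred_eq, hyn]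
    exact Bool.false_ne_true
  · simp only [mem_ofPred_eq, hyσ]
    exact Bool.false_ne_true

end Pool.Agent.N693.TC
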